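import Pool.Agent.Y273.MU.Rot

/-!
# Coefficient multipliers of the class S: values in a discrete ring, combinations of rotations

`InS a`: `a` is the coefficient sequence of a function of the class `S`. `IsMultiplier l`: termwise
multiplication by `l` maps `S` into `S`.
-/

set_option autoImplicit false

namespace Pool.Agent.Results.MP_b17785_an.DiscreteValuesAndRotations

open Pool.Agent.Y273.MU

/-- (1) Let `R` be a subring of `ℂ` whose nonzero elements have modulus at least one (the integers,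
the Gaussian integers, any order of an imaginary quadratic field). The coefficient multipliers from
`S` to `S` with values in `R` are the sequence `1, 0, 0, …` and the sequences `u ^ (n - 1)` with
`u ∈ R`, `|u| = 1`.
(2) Let `l n = ∑ c_j w_j ^ (n - 1) + ρ n` for `n ≥ 1`, with distinct `w_j` of modulus one, nonzero `c_j`
and `∑ n |ρ n| < ∞`. If `l` is a multiplier from `S` to `S`, there is at most one index `j`.
(3) A finite combination `∑ c_j w_j ^ (n - 1)` of rotations (distinct `w_j` of modulus one, nonzero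
`c_j`) is a multiplier from `S` to `S` if and only if it is a single rotation with coefficient one. -/
theorem result :
    (∀ R : Subring ℂ, (∀ x ∈ R, x ≠ 0 → 1 ≤ ‖x‖) → ∀ l : ℕ → ℂ, (∀ n, 1 ≤ n → l n ∈ R) →
      (IsMultiplier l ↔ (l 1 = 1 ∧ ∀ n, 2 ≤ n → l n = 0) ∨
        ∃ u ∈ R, ‖u‖ = 1 ∧ ∀ n, 1 ≤ n → l n = u ^ (n - 1))) ∧
    (∀ (m : ℕ) (w c : Fin m → ℂ), (∀ j, ‖w j‖ = 1) → Function.Injective w → (∀ j, c j ≠ 0) →
      ∀ ρ : ℕ → ℂ, (Summable fun n : ℕ => (n : ℝ) * ‖ρ n‖) →
      ∀ l : ℕ → ℂ, (∀ n, 1 ≤ n → l n = ∑ j, c j * w j ^ (n - 1) + ρ n) → IsMultiplier l →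
        m ≤ 1) ∧
    (∀ (m : ℕ) (w c : Fin m → ℂ), (∀ j, ‖w j‖ = 1) → Function.Injective w → (∀ j, c j ≠ 0) →
      ∀ l : ℕ → ℂ, (∀ n, 1 ≤ n → l n = ∑ j, c j * w j ^ (n - 1)) →
        (IsMultiplier l ↔ m = 1 ∧ ∀ j, c j = 1)) :=
  ⟨discrete, fun m w c hw hinj hc ρ hρ l hl hm => one_atom m w c hw hinj hc ρ hρ l hl hm,
    rotations⟩

end Pool.Agent.Results.MP_b17785_an.DiscreteValuesAndRotations
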